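import Pool.Agent.CLB.Final
import Pool.Agent.CLB.Exa
import Pool.Agent.CLB.TameEx

/-!
# Choiceless reductions of graph isomorphism to group isomorphism and other tame problems

`Tm Γ` are the programs of choiceless polynomial time with counting (terms of the logic of Blass,
Gurevich and Shelah, with cardinality) extended by

* all linear-algebraic operators `LaOp` over mild rings: functions of tuples of square matrices over
  the ring which are invariant under simultaneous similarity. All fields are mild, and so are all
  rings in which a positive number `c` with `c ^ 200 ≤ N` is zero, where `N` is the number of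
  elements of the input structure (`MildExamples`);
* all isomorphism-invariant functions `IsoOp` of tame structures, computable or not. Some of them are
  complete invariants (`CompleteInvariant`), so programs can test isomorphism of tame structures.
  Tame are, for example, the tables of groups and Latin squares with at most
  `2 ^ (N ^ (1 / 200) - 1)` elements, tournaments, structures with at most `N ^ (1 / 200)` elements,
  with colour classes of at most `N ^ (1 / 200)` elements or with at most `2 ^ (N ^ (1 / 200))`
  automorphisms (`TameExamples`). Tame is every structure in which all automorphisms of order a power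
  of two have order at most `N ^ (1 / 200)`.

The index set of the matrices and the universe of the structure are values of terms (any
hereditarily finite sets over the input), the entries and relations are given by terms with natural
numbers as values. `Accepts S t a b` means that the program `t` accepts the input structure `S` when
its iterations are bounded by `a` (number of steps) and `b` (number of active objects of every stage).

There are classes `K`, `L` of graphs, closed under isomorphism, such that `L` is decided, on all
graphs, by a Turing machine in polynomial time, and isomorphism of graphs in `K` is decided by a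
complete invariant which is computed in polynomial time, and there are graphs `G i` in `K`, not in
`L`, and `H i` in `K` and in `L`, with the same number `N i` of vertices,
`2 ^ i ≤ N i ≤ 2 ^ (D (i + 1))`, such that every program gives the same answer
* on the pair `(G i, G i)` and the pair `(G i, H i)`, where a linear order of the vertices of the first
  graph is available to the program,
* on `G i` and `H i`,
for all large `i`, for all `a` and all `b ≤ 2 ^ (i √i / C)`; this bound is superpolynomial in `N i`.

In particular graph isomorphism has no polynomial-time choiceless (Turing) reduction to group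
isomorphism, to isomorphism of Latin squares, of tournaments or of structures with small colour
classes, not even if the reduction can use all linear algebra over fields.
-/

set_option autoImplicit false

namespace Pool.Agent.Results.MP_128e7d_lc.ChoicelessReductions

open Pool.Agent.CLB
open Pool.Agent.CLA (PV GV pStr gStr)

/-- `f` is computed by a Turing machine in polynomial time -/
def PTime (f : List Bool → List Bool) : Prop :=
  Nonempty (Turing.TM2ComputableInPolyTime (fun w : List Bool => w) (fun w : List Bool => w) f)

open Classical in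
/-- the adjacency matrix of a graph, row by row -/
noncomputable def graphCode {n : ℕ} (G : SimpleGraph (Fin n)) : List Bool :=
  (List.finRange n).flatMap (fun i => (List.finRange n).map (fun j => decide (G.Adj i j)))

/-- closed under isomorphism -/
def IsoClosed (K : ∀ V : Type, SimpleGraph V → Prop) : Prop :=
  ∀ (V W : Type) (G : SimpleGraph V) (H : SimpleGraph W), K V G → Nonempty (G ≃g H) → K W H

/-- these structures are tame in an input with `N` elements:
* all structures whose automorphisms preserve a Latin square `op` on `I` (for example, tables of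
  groups: `w (x, y, z) ≠ 0` if and only if `op x y = z`) with `(log |I| + 1) ^ 200 ≤ N`;
* tournaments;
* structures with colour classes of at most `c` elements (the colour of `x` is `w (x, …, x)`),
  `c ^ 200 ≤ N`;
* structures with at most `2 ^ m` automorphisms, `m ^ 200 ≤ N` -/
def TameExamples (N : ℕ) : Prop :=
  ∀ (I : Type) [Fintype I],
    (∀ (r : ℕ) (w : (Fin r → I) → ℕ) (op : I → I → I), (∀ x, Function.Injective (op x)) →
      (∀ y, Function.Injective fun x => op x y) →
      (∀ σ : Equiv.Perm I, IsAut w σ → ∀ x y, σ (op x y) = op (σ x) (σ y)) →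
      (Nat.log 2 (Fintype.card I) + 1) ^ 200 ≤ N → Tame N w) ∧
    (∀ w : (Fin 2 → I) → ℕ, (∀ x y : I, x ≠ y → (w ![x, y] = 0 ↔ w ![y, x] ≠ 0)) → Tame N w) ∧
    (∀ (r c : ℕ) (w : (Fin r → I) → ℕ), c ^ 200 ≤ N →
      (∀ q : ℕ, Nat.card {x : I // w (fun _ => x) = q} ≤ c) → Tame N w) ∧
    (∀ (r m : ℕ) (w : (Fin r → I) → ℕ), m ^ 200 ≤ N →
      Nat.card {σ : Equiv.Perm I // IsAut w σ} ≤ 2 ^ m → Tame N w)

/-- these rings are mild in an input with `N` elements: fields, and rings in which a positive number
`c` with `c ^ 200 ≤ N` is zero -/
def MildExamples (N : ℕ) : Prop :=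
  (∀ (F : Type) [Field F], Mild N F) ∧
    ∀ (R : Type) [Ring R] (c : ℕ), 0 < c → c ^ 200 ≤ N → (c : R) = 0 → Mild N R

/-- `o` is a complete invariant of structures with an `r`-ary function: it has the same value at two
structures if and only if they are isomorphic -/
def CompleteInvariant (r : ℕ) (o : IsoOp) : Prop :=
  o.r = r ∧ ∀ (p : ℕ) (I J : Type) [Fintype I] [Fintype J] (w : (Fin o.r → I) → ℕ)
    (v : (Fin o.r → J) → ℕ), o.f p I w = o.f p J v ↔ ∃ e : I ≃ J, ∀ x, v (fun j => e (x j)) = w x

theorem result : (∃ (D : ℕ) (K L : ∀ V : Type, SimpleGraph V → Prop)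
    (dec inv : List Bool → List Bool) (N : ℕ → ℕ) (G H : ∀ i, SimpleGraph (Fin (N i))),
    IsoClosed K ∧ IsoClosed L ∧ PTime dec ∧
    (∀ (n : ℕ) (G : SimpleGraph (Fin n)), dec (graphCode G) = [true] ↔ L (Fin n) G) ∧
    PTime inv ∧
    (∀ (n m : ℕ) (G : SimpleGraph (Fin n)) (H : SimpleGraph (Fin m)), K (Fin n) G →
      K (Fin m) H → (inv (graphCode G) = inv (graphCode H) ↔ Nonempty (G ≃g H))) ∧
    (∀ i, 2 ^ i ≤ N i ∧ N i ≤ 2 ^ (D * (i + 1)) ∧ K (Fin (N i)) (G i) ∧ K (Fin (N i)) (H i) ∧
      ¬ L (Fin (N i)) (G i) ∧ L (Fin (N i)) (H i) ∧ IsEmpty (G i ≃g H i)) ∧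
    (∀ (t : Tm PV) (t' : Tm GV), ∃ C : ℕ, ∀ i ≥ C, ∀ a b : ℕ, b ^ C ≤ 2 ^ (i * Nat.sqrt i) →
      (Accepts (pStr (G i).Adj (· ≤ ·) (G i).Adj) t a b ↔
        Accepts (pStr (G i).Adj (· ≤ ·) (H i).Adj) t a b) ∧
      (Accepts (gStr (G i).Adj) t' a b ↔ Accepts (gStr (H i).Adj) t' a b)) ∧
    (∀ (t : Tm PV) (p q : Polynomial ℕ), ¬ ∀ (n : ℕ) (G H : SimpleGraph (Fin n)),
      K (Fin n) G → K (Fin n) H →
      (Accepts (pStr G.Adj (· ≤ ·) H.Adj) t (p.eval (n + n)) (q.eval (n + n)) ↔
        Nonempty (G ≃g H))) ∧
    (∀ (t : Tm GV) (p q : Polynomial ℕ), ¬ ∀ (n : ℕ) (G : SimpleGraph (Fin n)),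
      K (Fin n) G → (Accepts (gStr G.Adj) t (p.eval n) (q.eval n) ↔ L (Fin n) G))) ∧
    (∀ N ≥ 1, TameExamples N ∧ MildExamples N) ∧ ∀ r : ℕ, ∃ o : IsoOp, CompleteInvariant r o := by
  refine ⟨?_, fun N hN => ⟨fun I _ => ⟨?_, ?_, ?_, ?_⟩, ⟨?_, ?_⟩⟩, fun r => ?_⟩
  · obtain ⟨D, K, L, dec, inv, N, G, H, h1, h2, h3, h4, h5, h6, h7, h8, h9, h10⟩ := final
    exact ⟨D, K, L, dec, inv, N, G, H, h1, h2, h3, h4, h5, h6, h7, h8, h9, h10⟩
  · exact fun r w op h1 h2 hw hc => tame_latin hN w op h1 h2 hw hc
  · exact fun w h => tame_tour hN w h
  · intro r c w hc h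
    refine tame_col w hc hN (fun T q hT => ?_)
    refine le_trans ?_ (h q)
    rw [Nat.card_eq_fintype_card, Fintype.card_subtype]
    exact Finset.card_le_card (fun x hx => by simpa using hT x hx)
  · exact fun r m w hm h => tame_aut hN w h hm
  · exact fun F _ => mild_field hN F
  · exact fun R _ c h0 hc h => mild_char hc h0 R h
  · obtain ⟨o, h, ho⟩ := complete_inv r
    exact ⟨o, h, ho⟩

end Pool.Agent.Results.MP_128e7d_lc.ChoicelessReductions
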