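import Pool.Agent.HomO.Main

/-!
# Homomorphism counts from coarse classes of graphs do not decide isomorphism

* `Pool.Agent.HomV.InClass k F`: the graph `F` is obtained by clique sums of order at most `k` from
  `k`-nearly embeddable graphs (`Pool.Agent.HomV.NearEmb`): graphs in a surface of Euler genus at
  most `k` with at most `k` apex vertices and at most `k` vortices of depth at most `k`.
* `Pool.Agent.HomQ.Coarse k F`: `F` has a quasi-isometric embedding (with constant `k`) in a finite
  graph of that class.
* `Pool.Agent.HomI.CliqueImm k F`: an immersion of the complete graph with `k` vertices in `F`.
* `Pool.Agent.HomO.OddClass k F F`: the graph `F` is obtained by clique sums of order at most `k`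
  from `k`-nearly embeddable graphs and from graphs which are bipartite after deleting at most `k`
  vertices (for these graphs the edges added in the clique sums have an end among the deleted
  vertices).
* `Pool.Agent.HomW.Glue P`: the closure of the property `P` under gluing along complete subgraphs.
* `Pool.Agent.HomW.Dec P k F Y`: the set `Y` of vertices can be divided again and again into two
  parts, until all parts induce graphs with the property `P`, and for every set in this hierarchy
  the edges between this set and its complement have an end at distance at most `k` from one of at
  most `k` vertices (`Pool.Agent.HomW.ThinCut`).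
* `Pool.Agent.HomO.M k 0`: the closure under gluing of the graphs with the property `Coarse k`, of
  the graphs without an immersion of the complete graph with `k` vertices and of the graphs with
  `OddClass k F F`; `M k (n + 1)`: the closure under gluing of the graphs `F` with
  `Dec (M k n) k F univ`.

For all `k` and `n` there are two non-isomorphic finite graphs `G` and `H`, regular of the same
degree, with the same number of homomorphisms from every finite graph `F` in `M k n`.
-/

namespace Pool.Agent.Results.MP_128e7d_lc.HomCountsCoarseClasses

open Pool.Agent.HomO

theorem result (k n : ℕ) : ∃ (W W' : Type) (_ : Fintype W) (_ : Fintype W') (G : SimpleGraph W)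
    (H : SimpleGraph W'),
      (∃ d, (∀ v, (G.neighborSet v).ncard = d) ∧ ∀ v, (H.neighborSet v).ncard = d) ∧
      IsEmpty (G ≃g H) ∧ ∀ (V : Type) [Fintype V] (F : SimpleGraph V), M k n F →
        Nat.card (F →g G) = Nat.card (F →g H) :=
  main k n

end Pool.Agent.Results.MP_128e7d_lc.HomCountsCoarseClasses
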